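import Pool.Agent.U798.BV.Spec

/-!
# Project BV, package LIM: a `0`-`1`-valued function of bounded variation is constant on the right of `0`
-/

set_option autoImplicit false

open Filter Topology Set

namespace Pool.Agent.U408.BV

theorem t_LIM : Pool.Agent.U798.BV.S_LIM := by
  intro f hf h01
  obtain ⟨l, hl⟩ := hf.exists_tendsto_right 0
  have hset : 𝓝[Icc (0 : ℝ) 1 ∩ Ioi 0] (0 : ℝ) = 𝓝[>] 0 := by
    apply nhdsWithin_eq_nhdsWithin (s := Iio 1) (by norm_num) isOpen_Iio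
    ext x
    simp only [mem_inter_iff, mem_Icc, mem_Ioi, mem_Iio]
    constructor
    · rintro ⟨⟨⟨_, _⟩, h3⟩, h4⟩
      exact ⟨h3, h4⟩
    · rintro ⟨h3, h4⟩
      exact ⟨⟨⟨h3.le, h4.le⟩, h3⟩, h4⟩
  rw [hset] at hl
  have h1 : ∀ᶠ t in 𝓝[>] (0 : ℝ), dist (f t) l < 1 / 2 := hl.eventually (Metric.ball_mem_nhds l (by norm_num))
  obtain ⟨ε, hε, h2⟩ := mem_nhdsGT_iff_exists_Ioo_subset.1 h1
  have hε0 : (0 : ℝ) < ε := hε
  refine ⟨ε, hε0, ?_⟩
  have h3 : ∀ t ∈ Ioo 0 ε, |f t - l| < 1 / 2 := fun t ht => by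
    have := h2 ht
    rwa [mem_ofPred_eq, Real.dist_eq] at this
  rcases h01 (ε / 2) with h | h
  · left
    intro t ht
    rcases h01 t with h4 | h4
    · exact h4
    · have h5 := abs_lt.1 (h3 t ht)
      have h6 := abs_lt.1 (h3 (ε / 2) ⟨by linarith, by linarith⟩)
      rw [h] at h6
      rw [h4] at h5
      linarith [h5.1, h5.2, h6.1, h6.2]
  · right
    intro t ht
    rcases h01 t with h4 | h4
    · have h5 := abs_lt.1 (h3 t ht)
      have h6 := abs_lt.1 (h3 (ε / 2) ⟨by linarith, by linarith⟩)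
      rw [h] at h6
      rw [h4] at h5
      linarith [h5.1, h5.2, h6.1, h6.2]
    · exact h4

end Pool.Agent.U408.BV
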